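import Mathlib

/-!
# MP_5ee2d0_ag: cohomology of infinitesimal neighbourhoods

`D` is a reduced Cartier divisor on `V`, it is compact, the pair `(V, D)` is log canonical and `K_V = l D`. So
`V` is canonical and Gorenstein near `D`, and `D` is semi log canonical with Du Bois singularities (Kollár and
Kovács 2010). `D_k = k D`; its dualising sheaf is the restriction of `O_V((l + k) D)`. (In the application
`V` is a root stack, locally the quotient of a variety by a finite group.)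
-/

namespace Pool.Agent.H21.TN.CO

/-! ## Linear algebra -/

/-- linear maps -/
def Lin {A B : Type} [AddCommGroup A] [Module ℂ A] [AddCommGroup B] [Module ℂ B] (f : A → B) : Prop :=
  (∀ x y, f (x + y) = f x + f y) ∧ ∀ (t : ℂ) x, f (t • x) = t • f x

/-- bilinear maps -/
def BiLin {A B C : Type} [AddCommGroup A] [Module ℂ A] [AddCommGroup B] [Module ℂ B] [AddCommGroup C]
    [Module ℂ C] (f : A → B → C) : Prop := (∀ x, Lin (f x)) ∧ ∀ y, Lin fun x => f x y

/-- exact sequences -/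
def Ex {A B C : Type} [AddCommGroup C] (f : A → B) (g : B → C) : Prop := ∀ y, g y = 0 ↔ ∃ u, f u = y

/-- linear maps from `ℂ^p` to `ℂ^q` -/
def CLin {p q : ℕ} (f : (Fin p → ℂ) → Fin q → ℂ) : Prop := Lin f

/-- exact sequences -/
def CEx {p q r : ℕ} (f : (Fin p → ℂ) → Fin q → ℂ) (g : (Fin q → ℂ) → Fin r → ℂ) : Prop := Ex f g

/-- affine maps -/
def CAff {p q : ℕ} (f : (Fin p → ℂ) → Fin q → ℂ) : Prop :=
  ∀ (t : ℂ) x, f (t • x) = f 0 + t • (f x - f 0)

/-- a perfect pairing of `ℂ^p` and `ℂ^q` -/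
def Perfect {p q : ℕ} (b : (Fin p → ℂ) → (Fin q → ℂ) → ℂ) : Prop :=
  BiLin b ∧ (∀ x, (∀ y, b x y = 0) → x = 0) ∧ ∀ y, (∀ x, b x y = 0) → y = 0

/-- `g` is the transpose of `f` -/
def Adj {p q p' q' : ℕ} (f : (Fin p → ℂ) → Fin q → ℂ) (g : (Fin q' → ℂ) → Fin p' → ℂ) : Prop :=
  ∃ (b : (Fin p → ℂ) → (Fin p' → ℂ) → ℂ) (b' : (Fin q → ℂ) → (Fin q' → ℂ) → ℂ),
    Perfect b ∧ Perfect b' ∧ ∀ x y, b' (f x) y = b x (g y)

/-! ## Cohomology of the infinitesimal neighbourhoods -/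

/-- Cohomology of `D_k`, a projective scheme (stack) of dimension `N + 1`; `D_0` is empty. The space
`H^q(D_k, O(m D))` is `ℂ^(h q k m)`. The classes `x` in `H^1(D, O(-k D))`, `k ≥ 1`, are the isomorphism
classes of line bundles on `D_(k+1)` with a trivialisation on `D_k`. -/
structure Coh where
  h : ℕ → ℕ → ℤ → ℕ
  /-- the restriction from `D_(k+1)` to `D_k` -/
  res : ∀ q k m, (Fin (h q (k + 1) m) → ℂ) → Fin (h q k m) → ℂ
  /-- The space `H^q(D_(k+1), O(m D) ⊗ x)` is `ℂ^(hT q k m x)`. -/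
  hT : ∀ (_ k : ℕ) (_ : ℤ), (Fin (h 1 1 (-k)) → ℂ) → ℕ
  /-- the restriction to `D_k` -/
  rT : ∀ q k m x, (Fin (hT q k m x) → ℂ) → Fin (h q k m) → ℂ
  /-- the connecting map of `0 → O_D((m - k) D) → O_(D_(k+1))(m D) ⊗ x → O_(D_k)(m D) → 0` -/
  d : ∀ q (k : ℕ) m, (Fin (h 1 1 (-k)) → ℂ) → (Fin (h q k m) → ℂ) → Fin (h (q + 1) 1 (m - k)) → ℂ
  /-- the connecting map of `0 → O_(D_k)((m - 1) D) → O_(D_(k+1))(m D) ⊗ x → O_D(m D) → 0` -/
  dl : ∀ q (k : ℕ) m, (Fin (h 1 1 (-k)) → ℂ) → (Fin (h q 1 m) → ℂ) → Fin (h (q + 1) k (m - 1)) → ℂ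

namespace Coh

variable (C : Coh)

/-- the restriction from `D_(n+1)` to `D` -/
noncomputable def one (q : ℕ) (m : ℤ) (n : ℕ) : (Fin (C.h q (n + 1) m) → ℂ) → Fin (C.h q 1 m) → ℂ :=
  n.rec id fun n f t => f (C.res q (n + 1) m t)

/-- the restriction from `H^q(D_(n+2), O(m D) ⊗ x)` to `D` -/
noncomputable def rD (q n : ℕ) (m : ℤ) (x : Fin (C.h 1 1 (-(n + 1 : ℕ))) → ℂ)
    (t : Fin (C.hT q (n + 1) m x) → ℂ) : Fin (C.h q 1 m) → ℂ :=
  C.one q m n (C.rT q (n + 1) m x t)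

/-- the connecting map of `0 → O_D((m - k) D) → O_(D_(k+1))(m D) → O_(D_k)(m D) → 0` -/
def d₀ (q k : ℕ) (m : ℤ) : (Fin (C.h q k m) → ℂ) → Fin (C.h (q + 1) 1 (m - k)) → ℂ := C.d q k m 0

/-- the class is the restriction of a class on `D_(k+1)` -/
def Ext (q k : ℕ) (m : ℤ) (t : Fin (C.h q k m) → ℂ) : Prop := ∃ u, C.res q k m u = t

/-- Exact sequences and Serre duality, `k = n + 1 ≥ 1`; `N + 1` is the dimension of `D`. -/
structure Exact (N l : ℕ) : Prop where
  lin : ∀ q k m, CLin (C.res q k m)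
  /-- the connecting map is the sum of the connecting map `d₀` and the product with `x` -/
  aff : ∀ q k m t, CAff fun x => C.d q k m x t
  /-- the product with the equation of `D_k`, from `H^0(D, O((m - k) D))` to `H^0(D_(k+1), O(m D))` -/
  inj : ∀ n m, ∃ io : (Fin (C.h 0 1 (m - (n + 1 : ℕ))) → ℂ) → Fin (C.h 0 (n + 1 + 1) m) → ℂ,
    CLin io ∧ Function.Injective io ∧ CEx io (C.res 0 (n + 1) m)
  exact : ∀ q n m, CEx (C.res q (n + 1) m) (C.d₀ q (n + 1) m)
  exact_rT : ∀ q n m x, CEx (C.rT q (n + 1) m x) (C.d q (n + 1) m x)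
  exact_rD : ∀ q n m x, CEx (C.rD q n m x) (C.dl q (n + 1) m x)
  /-- Serre duality. The dualising sheaf of `D_k` is `O((l + k) D)`, and the two exact sequences with the
  sheaves `O_(D_(k+1))(m D) ⊗ x` and `O_(D_(k+1))(m' D) ⊗ (-x)` are dual to each other if
  `m + m' = l + k + 1`. -/
  dual : ∀ (q q' n : ℕ) (m m' : ℤ) x, q + q' = N → m + m' = l + (n + 1 : ℕ) + 1 →
    Adj (C.d q (n + 1) m x) (C.dl q' (n + 1) m' (-x))
  /-- there is no cohomology in degrees greater than the dimension -/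
  dim : ∀ q m, N + 1 < q → C.h q 1 m = 0

/-- all classes of degree at least `l + k + 1` on `D_k` extend to `D_(k+1)` -/
def E (l k : ℕ) : Prop := ∀ q (m : ℤ), (l + k + 1 : ℤ) ≤ m → ∀ t, C.Ext q k m t

/-- the class `(m / M) x` -/
noncomputable def pw (n M : ℕ) (x : Fin (C.h 1 1 (-(n + 1 : ℕ))) → ℂ) (m : ℤ) : Fin (C.h 1 1 (-(n + 1 : ℕ))) → ℂ :=
  ((m : ℂ) / M) • x

/-- Let `k = n + 1`, and let `u` be a section of `O(M D) ⊗ x` on `D_(k+1)` without zeros, `M > 0`. Consider the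
covering `y^M = u` of `D_(k+1)`, which is étale. Its reduction is the covering `y^M = u|D` of `D`, it is semi
log canonical, so it has Du Bois singularities (Kollár and Kovács 2010). The direct images of the structure
sheaves are the sums of the sheaves `O(m D) ⊗ (m / M) x` and `O_D(m D)`, `-M < m ≤ 0`. -/
structure Cover (n M : ℕ) (x : Fin (C.h 1 1 (-(n + 1 : ℕ))) → ℂ) where
  /-- the cohomology of the covering with coefficients in `ℂ` -/
  A : ℕ → Type
  /-- As `ℂ` is a subsheaf of the structure sheaf of the covering of `D_(k+1)`, there are maps from its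
  cohomology to the cohomology of the summands. -/
  f : ∀ q (m : ℤ), A q → Fin (C.hT q (n + 1) m (C.pw n M x m)) → ℂ
  /-- `H^q(ℂ) → H^q(O)` is onto for a projective scheme with Du Bois singularities (Du Bois 1981); here
  for the covering of `D`. -/
  dubois : ∀ q (w : ∀ m : ℤ, Fin (C.h q 1 m) → ℂ), ∃ a, ∀ m : ℤ, -(M : ℤ) < m → m ≤ 0 →
    C.rD q n m _ (f q m a) = w m

end Coh

end Pool.Agent.H21.TN.CO
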