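import Pool.Agent.H21.TN.CO.Coh

/-! Étale cyclic coverings of infinitesimal neighbourhoods (after helper31 and helper76). -/

namespace Pool.Agent.H21.TN.CO

section

variable {A B : Type} [AddCommGroup A] [Module ℂ A] [AddCommGroup B] [Module ℂ B] {f : A → B}

theorem Lin.add (h : Lin f) (x y : A) : f (x + y) = f x + f y := h.1 x y

theorem Lin.smul (h : Lin f) (t : ℂ) (x : A) : f (t • x) = t • f x := h.2 t x

/-- a linear map -/
def Lin.map (h : Lin f) : A →ₗ[ℂ] B := { toFun := f, map_add' := h.1, map_smul' := h.2 }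

theorem Lin.zero (h : Lin f) : f 0 = 0 := map_zero h.map

theorem Lin.neg (h : Lin f) (x : A) : f (-x) = -f x := map_neg h.map x

theorem Lin.sub (h : Lin f) (x y : A) : f (x - y) = f x - f y := map_sub h.map x y

theorem Lin.sum (h : Lin f) {p : ℕ} (v : Fin p → A) : f (∑ i, v i) = ∑ i, f (v i) :=
  map_sum h.map v Finset.univ

theorem Lin.comp {C : Type} [AddCommGroup C] [Module ℂ C] {g : B → C} (hg : Lin g) (h : Lin f) :
    Lin fun x => g (f x) :=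
  ⟨fun x y => (congrArg g (h.add x y)).trans (hg.add _ _),
    fun t x => (congrArg g (h.smul t x)).trans (hg.smul _ _)⟩

end

variable {N l : ℕ}

section Cover

variable {C : Coh} {n M : ℕ} {x : Fin (C.h 1 1 (-(n + 1 : ℕ))) → ℂ}

/-- `H^q(D_(k+1), O(m D) ⊗ (m / M) x) → H^q(D, O(m D))` is onto for `-M < m ≤ 0` -/
lemma Coh.Cover.onto_rD (c : C.Cover n M x) (q : ℕ) (m : ℤ) (h1 : -(M : ℤ) < m) (h2 : m ≤ 0)
    (w : Fin (C.h q 1 m) → ℂ) : ∃ u, C.rD q n m (C.pw n M x m) u = w := by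
  obtain ⟨a, ha⟩ := c.dubois q fun m' => if h : m = m' then h ▸ w else 0
  refine ⟨c.f q m a, ?_⟩
  rw [ha m h1 h2, dif_pos rfl]

/-- The second sequence with the sheaf `O(m' D) ⊗ (m' / M) x` splits into short exact sequences. By
duality the first sequence with the sheaf `O(m D) ⊗ (-m' / M) x` does, `m + m' = l + k + 1`. -/
lemma Coh.Cover.d_eq (c : C.Cover n M x) (hC : C.Exact N l) (q : ℕ) (m m' : ℤ)
    (hm : m + m' = l + (n + 1 : ℕ) + 1) (h1 : -(M : ℤ) < m') (h2 : m' ≤ 0)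
    (t : Fin (C.h q (n + 1) m) → ℂ) : C.d q (n + 1) m (-C.pw n M x m') t = 0 := by
  by_cases hq : q ≤ N
  · obtain ⟨q', hq'⟩ := Nat.exists_eq_add_of_le hq
    obtain ⟨b, b', hb, hb', h⟩ := hC.dual q q' n m m' (-C.pw n M x m') hq'.symm hm
    rw [neg_neg] at h
    refine hb'.2.1 _ fun w => ?_
    obtain ⟨u, rfl⟩ := c.onto_rD q' m' h1 h2 w
    rw [h, (hC.exact_rD q' n m' _ _).2 ⟨u, rfl⟩]
    exact (hb.1.1 t).zero
  · have h0 := hC.dim (q + 1) (m - (n + 1 : ℕ)) (by omega)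
    funext i
    exact (Fin.cast h0 i).elim0

/-- the section extends -/
lemma Coh.Cover.extends_ (c : C.Cover n M x) (hC : C.Exact N l) (hM : l + (n + 1) + 1 ≤ M)
    (s : Fin (C.h 0 (n + 1) M) → ℂ) (hs : C.d 0 (n + 1) M x s = 0) : C.d₀ 0 (n + 1) M s = 0 := by
  have h1 := c.d_eq hC 0 M ((l : ℤ) + (n + 1 : ℕ) + 1 - M) (by ring) (by omega) (by omega) s
  have e : -C.pw n M x ((l : ℤ) + (n + 1 : ℕ) + 1 - M) =
      (-((((l : ℤ) + (n + 1 : ℕ) + 1 - M : ℤ) : ℂ) / M)) • x := by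
    unfold Coh.pw
    rw [neg_smul]
  have h2 := hC.aff 0 (n + 1) M s (-((((l : ℤ) + (n + 1 : ℕ) + 1 - M : ℤ) : ℂ) / M)) x
  beta_reduce at h2
  rw [e, h2, hs, zero_sub, smul_neg, neg_smul, neg_neg] at h1
  have hM0 : (M : ℂ) ≠ 0 := by
    have : M ≠ 0 := by omega
    exact_mod_cast this
  have h3 : (1 + (((l : ℤ) + (n + 1 : ℕ) + 1 - M : ℤ) : ℂ) / M) • C.d 0 (n + 1) M 0 s = 0 := by
    rw [add_smul, one_smul]
    exact h1
  have h4 : (1 + (((l : ℤ) + (n + 1 : ℕ) + 1 - M : ℤ) : ℂ) / M) ≠ 0 := by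
    have e : (1 + (((l : ℤ) + (n + 1 : ℕ) + 1 - M : ℤ) : ℂ) / M) = ((l + n + 2 : ℕ) : ℂ) / M := by
      push_cast
      field_simp
      ring
    rw [e]
    exact div_ne_zero (Nat.cast_ne_zero.mpr (Nat.succ_ne_zero (l + n + 1))) hM0
  exact (smul_eq_zero.mp h3).resolve_left h4

end Cover

lemma Coh.one_onto (C : Coh) (q : ℕ) (m : ℤ) (k : ℕ) (h : ∀ j, 1 ≤ j → j < k + 1 → ∀ t, C.Ext q j m t) :
    ∀ y, ∃ u, C.one q m k u = y := by
  induction k with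
  | zero => exact fun y => ⟨y, rfl⟩
  | succ k ih =>
    intro y
    obtain ⟨v, rfl⟩ := ih (fun j h1 h2 => h j h1 (by omega)) y
    obtain ⟨u, rfl⟩ := h (k + 1) (by omega) (by omega) v
    exact ⟨u, rfl⟩

lemma Coh.one_lin (C : Coh) (hC : C.Exact N l) (q : ℕ) (m : ℤ) : ∀ k, Lin (C.one q m k)
  | 0 => ⟨fun _ _ => rfl, fun _ _ => rfl⟩
  | k + 1 => (C.one_lin hC q m k).comp (hC.lin q (k + 1) m)

end Pool.Agent.H21.TN.CO
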