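import Pool.Agent.H21.TN.CO.Coh

/-!
# MP_5ee2d0_ag: a nef divisor whose restriction to its support is torsion
-/

namespace Pool.Agent.H21.TN.CO

/-- `Y'` is a projective variety of dimension `N + 2`, `S'` is a reduced divisor, `(Y', S')` is dlt and `ℚ`-factorial,
`G' = ∑ m_j F_j` is a nef Cartier divisor with the support `S'`, and `K + S' = c G'` near `S'`, `c > 0`; more
precisely there is a rational `N + 2`-form on `Y'` with the divisor `∑ k_j F_j + K'`, where `k_j + 1 = c m_j`, and
`K'` is disjoint from `S'`. The restriction of `G'` to `S'` is numerically trivial. So the restriction of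
`K + S'` is torsion (Gongyo 2013, abundance theorem for numerically trivial log canonical divisors of
semi log canonical pairs), and that of `O(G')` is torsion too, of order `g`.

Let `b'` be a common multiple of the `m_j` with `c b'` integral, `l = c b' - 1` and `b = b' g`. The root stack of
order `b'` of `(Y', G')` along `S'` is locally the quotient of `V` by the group of the `b'`-th roots of unity, `V`
the normalised covering `z^b' = s`, `s` a local equation of `G'`. Let `D` be the divisor of `z`, `D_k = k D`. `D` is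
reduced and Cartier, `K_V = l D`, and the pair `(V, D)` is log canonical. The group `H^q(D_k, O(m D))` is the
part of weight zero, it is `H^q` of the sheaf `O(⌊(m / b') G'⌋) / O(⌊((m - k) / b') G'⌋)` on `Y'`. In
particular `O(b D) = O(g G')`, and this is trivial on `D`.

`h0 i` is the dimension of `H^0(Y', O(i G'))`. -/
structure Last (N : ℕ) (h0 : ℕ → ℕ) where
  l : ℕ
  b : ℕ
  g : ℕ
  b_pos : 0 < b
  g_pos : 0 < g
  C : Coh
  ex : C.Exact N l
  /-- the section of `O(M D)` on `D` without zeros, `M` a multiple of `b` -/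
  s : ∀ M : ℕ, Fin (C.h 0 1 M) → ℂ
  s_ne : ∀ M, b ∣ M → ∃ j, s M j ≠ 0
  /-- The product with `s M` is an isomorphism of `H^1(D, O(-k D))` and `H^1(D, O((M - k) D))`, `k = n + 1`. The
  connecting map `d` is the sum of `d₀` and the product with `x`. -/
  div : ∀ n M : ℕ, b ∣ M → ∀ u, C.one 0 M n u = s M → ∃ x, C.d 0 (n + 1) M x u = 0
  /-- the covering; `u` has no zeros -/
  cover : ∀ (n M : ℕ) x u, 0 < M → b ∣ M → C.rD 0 n M x u = s M → Nonempty (C.Cover n M x)
  /-- the restriction of the sections of `O(a g G')` to `D_(n+1)` -/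
  rs : ∀ a n : ℕ, (Fin (h0 (g * a)) → ℂ) → Fin (C.h 0 (n + 1) (b * a : ℕ)) → ℂ
  lin_rs : ∀ a n, CLin (rs a n)
  /-- If `b a = l + n + 1` then the part of weight zero of `O(b a D)` on `D_(n+1)` is the quotient of
  `O(a g G')` by `O(∑ k_j F_j)`, because `K_V = l D`; `con` is the connecting map to
  `H^1(Y', O(∑ k_j F_j))`. -/
  h1 : ℕ
  con : ∀ a n : ℕ, (Fin (C.h 0 (n + 1) (b * a : ℕ)) → ℂ) → Fin h1 → ℂ
  lin_con : ∀ a n, CLin (con a n)
  exact : ∀ a n : ℕ, b * a = l + n + 1 → CEx (rs a n) (con a n)

end Pool.Agent.H21.TN.CO
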