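import Pool.Agent.H21.TN.CO.Ext
import Pool.Agent.H21.TN.CO.Last

/-! The multiples of `G'` have many sections. -/

namespace Pool.Agent.H21.TN.CO

variable {p q r : ℕ}

theorem CEx.map_ker {f : (Fin p → ℂ) → Fin q → ℂ} {g : (Fin q → ℂ) → Fin r → ℂ} (hf : CLin f)
    (hg : CLin g) (h : CEx f g) : LinearMap.range (Lin.map hf) = LinearMap.ker (Lin.map hg) := by
  ext y
  rw [LinearMap.mem_range, LinearMap.mem_ker]
  exact (h y).symm

/-- left exact sequences -/
theorem CEx.add_le {f : (Fin p → ℂ) → Fin q → ℂ} {g : (Fin q → ℂ) → Fin r → ℂ} (hf : CLin f)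
    (hg : CLin g) (h : CEx f g) (hi : Function.Injective f) (ho : ∀ y, ∃ x, g x = y) : r + p ≤ q := by
  have h1 := LinearMap.finrank_range_add_finrank_ker (Lin.map hg)
  rw [← CEx.map_ker hf hg h, LinearMap.finrank_range_of_inj (f := Lin.map hf) hi,
    LinearMap.range_eq_top.2 (show Function.Surjective (Lin.map hg) from ho), finrank_top] at h1
  simp only [Module.finrank_fintype_fun_eq_card, Fintype.card_fin] at h1
  omega

/-- exact sequences -/
theorem CEx.le_add {f : (Fin p → ℂ) → Fin q → ℂ} {g : (Fin q → ℂ) → Fin r → ℂ} (hf : CLin f)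
    (hg : CLin g) (h : CEx f g) : q ≤ p + r := by
  have h1 := LinearMap.finrank_range_add_finrank_ker (Lin.map hg)
  have h2 := LinearMap.finrank_range_add_finrank_ker (Lin.map hf)
  rw [CEx.map_ker hf hg h] at h2
  have h4 := Submodule.finrank_le (LinearMap.range (Lin.map hg))
  simp only [Module.finrank_fintype_fun_eq_card, Fintype.card_fin] at h1 h2 h4
  omega

namespace Last

variable {N : ℕ} {h0 : ℕ → ℕ} (S : Last N h0)

/-- **Theorem.** All classes of degree at least `l + k + 1` on `D_k` extend to `D_(k+1)`. -/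
theorem all : ∀ k, 1 ≤ k → S.C.E S.l k := by
  intro k
  induction k using Nat.strong_induction_on with
  | _ k ih =>
    intro hk
    obtain ⟨n, rfl⟩ : ∃ n, k = n + 1 := ⟨k - 1, by omega⟩
    intro q m hm t
    have hb := S.b_pos
    obtain ⟨j, hj⟩ := Int.eq_ofNat_of_zero_le (by omega : 0 ≤ m - (S.l + (n + 1 : ℕ) + 1))
    -- a large multiple of `b`
    set M : ℕ := S.b * (j + S.l + (n + 1) + 2) with hMdef
    have hMle : j + S.l + (n + 1) + 2 ≤ M := Nat.le_mul_of_pos_left _ hb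
    have hbM : S.b ∣ M := Dvd.intro _ rfl
    obtain ⟨s, hs⟩ := S.C.one_onto 0 M n (fun j h1 h2 t => ih j h2 h1 0 M (by omega) t) (S.s M)
    -- the section `s` extends
    obtain ⟨x, hx⟩ := S.div n M hbM s hs
    obtain ⟨u, hu⟩ := (S.ex.exact_rT 0 n M x s).1 hx
    obtain ⟨c⟩ := S.cover n M x u (by omega) hbM ((congrArg (S.C.one 0 M n) hu).trans hs)
    have h1 := c.extends_ S.ex (by omega) s hx
    -- the covering
    obtain ⟨u, hu⟩ := (S.ex.exact_rT 0 n M 0 s).1 h1
    obtain ⟨c⟩ := S.cover n M 0 u (by omega) hbM ((congrArg (S.C.one 0 M n) hu).trans hs)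
    refine (S.ex.exact q n m t).1 ?_
    have h2 := c.d_eq S.ex q m (-j) (by push_cast at hj ⊢; omega) (by omega) (by omega) t
    unfold Coh.pw at h2
    rwa [smul_zero, neg_zero] at h2

theorem one_le (M : ℕ) (h : S.b ∣ M) : 1 ≤ S.C.h 0 1 M := by
  obtain ⟨j, -⟩ := S.s_ne M h
  have := j.2
  omega

/-- the dimension of `H^0(D_(k+1), O(M D))` -/
theorem h_ge (M : ℕ) (hM : S.b ∣ M) : ∀ k : ℕ, S.l + k + 1 ≤ M → k / S.b + 1 ≤ S.C.h 0 (k + 1) M := by
  intro k
  induction k with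
  | zero =>
    intro _
    rw [Nat.zero_div]
    exact S.one_le M hM
  | succ k ih =>
    intro hk
    have h1 := ih (by omega)
    obtain ⟨io, hio, hinj, hex⟩ := S.ex.inj k M
    have h2 := CEx.add_le hio (S.ex.lin 0 (k + 1) M) hex hinj
      (S.all (k + 1) (by omega) 0 M (by push_cast; omega))
    rw [Nat.succ_div]
    split_ifs with h3
    · have h4 : ((M : ℤ) - (k + 1 : ℕ)) = ((M - (k + 1) : ℕ) : ℤ) := by omega
      have h5 := S.one_le (M - (k + 1)) (Nat.dvd_sub hM h3)
      rw [h4] at h2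
      omega
    · omega

include S in
/-- **Theorem.** The dimensions of `H^0(Y', O(i G'))` are not bounded. -/
theorem unbounded (B : ℕ) : ∃ i, 0 < i ∧ B < h0 i := by
  have hb := S.b_pos
  have h1 : S.l + 1 ≤ S.b * (S.l + 1) := Nat.le_mul_of_pos_left _ hb
  obtain ⟨n, hn⟩ := Nat.exists_eq_add_of_le h1
  have h2 : S.b * (S.l + 1 + (B + S.h1)) = S.l + (n + S.b * (B + S.h1)) + 1 := by
    rw [Nat.mul_add, hn]
    omega
  refine ⟨S.g * (S.l + 1 + (B + S.h1)), Nat.mul_pos S.g_pos (by omega), ?_⟩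
  have h3 := S.h_ge _ (Dvd.intro _ rfl) (n + S.b * (B + S.h1)) h2.ge
  have h4 := CEx.le_add (S.lin_rs _ _) (S.lin_con _ _) (S.exact _ _ h2)
  rw [Nat.add_mul_div_left _ _ hb] at h3
  generalize n / S.b = t at h3
  omega

end Last

end Pool.Agent.H21.TN.CO
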